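import Pool.Agent.L0h34.RO.TFin

/-! # An oracle that codes acceptance by machines that use the same oracle -/

set_option autoImplicit false

namespace Pool.Agent.L0h34.CO

open Pool.Agent.L0h34.OM Pool.Agent.L0h34.RO

/-- The machines: programs with bounded space, and clocked verifiers, with the exponent of the bound. -/
abbrev Ix : Type := Bool × Prog × ℕ

/-- The machine obeys its bound. -/
def ok : Ix → Prop
  | (true, u, c) => SpaceBounded u c
  | (false, u, c) => ClockedVerifier u c

/-- The machine accepts `x`. -/
def acc (H : Oracle) : Ix → List Bool → Prop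
  | (true, u, _), x => Accepts H u x
  | (false, u, _), x => AcceptsSome H u x

/-- The exponent. -/
def ex : Ix → ℕ := fun i => i.2.2

theorem acc_local {i : Ix} (hi : ok i) {H H' : Oracle} {x : List Bool}
    (h : Agree (lbd (ex i) x.length) H H') : acc H' i x ↔ acc H i x := by
  obtain ⟨b, u, c⟩ := i
  cases b
  · exact acceptsSome_local hi h
  · exact accepts_local hi h

/-- A numbering of the machines. -/
noncomputable def pc : Ix → ℕ := Classical.choose (Countable.exists_injective_nat Ix)

theorem pc_inj : Function.Injective pc := Classical.choose_spec (Countable.exists_injective_nat Ix)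

/-- The instance for the machine `i`, the input `x`, and the padding `p`. -/
noncomputable def cod (i : Ix) (p : ℕ) (x : List Bool) : List Bool :=
  ones (pc i + 1) ++ false :: (ones p ++ false :: x)

/-- `v` is an instance for the machine `i` and the input `x`, with sufficient padding. -/
def Valid (v : List Bool) (i : Ix) (x : List Bool) : Prop :=
  ok i ∧ ∃ p, lbd (ex i) x.length ≤ p ∧ v = cod i p x

theorem Valid.unique {v : List Bool} {i j : Ix} {x y : List Bool} (h : Valid v i x)
    (h' : Valid v j y) : i = j ∧ x = y := by
  obtain ⟨_, p, _, h1⟩ := h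
  obtain ⟨_, p', _, h2⟩ := h'
  rw [h1] at h2
  obtain ⟨h3, h4⟩ := replicate_append_inj h2
  obtain ⟨_, h5⟩ := replicate_append_inj h4
  exact ⟨pc_inj (by omega), h5⟩

theorem Valid.lt {v : List Bool} {i : Ix} {x : List Bool} (h : Valid v i x) :
    lbd (ex i) x.length < v.length := by
  obtain ⟨_, p, h1, h2⟩ := h
  rw [h2, cod]
  simp only [ones, List.length_append, List.length_replicate, List.length_cons]
  omega

open Classical in
/-- The value of the instance `v`. -/
noncomputable def val (H D : Oracle) (v : List Bool) : Bool :=
  if ∃ i x, Valid v i x then decide (∃ i x, Valid v i x ∧ acc H i x) else D (adr tM 0 v)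

/-- The hidden witness for the value of `v`. -/
def wit (D : Oracle) (v : List Bool) : List Bool := rd D tC v v.length

/-- The mask bit of `v`. -/
def bb (D : Oracle) (v : List Bool) : Bool := D (adr tS 0 v)

theorem length_wit (D : Oracle) (v : List Bool) : (wit D v).length = v.length := length_rd _ _ _ _

open Classical in
/-- The oracle that is given by the data `D`, if the values are computed with the oracle `H`. -/
noncomputable def step (H D : Oracle) : Oracle
  | [] => false
  | true :: v => bb D v
  | [false] => false
  | false :: κ :: q => decide (q.drop (q.length / 2) = wit D (q.take (q.length / 2)) ∧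
      κ = val H D (q.take (q.length / 2)))

theorem val_congr {H H' D D' : Oracle} {v : List Bool}
    (h : ∀ q : List Bool, q.length < v.length → H' q = H q)
    (hD : D' (adr tM 0 v) = D (adr tM 0 v)) : val H' D' v = val H D v := by
  have : ∀ i x, (Valid v i x ∧ acc H' i x) ↔ (Valid v i x ∧ acc H i x) := by
    intro i x
    refine and_congr_right fun hv => acc_local hv.1 fun q hq => h q (lt_of_le_of_lt hq hv.lt)
  unfold val
  by_cases hc : ∃ i x, Valid v i x
  · rw [if_pos hc, if_pos hc]
    exact decide_eq_decide.2 (exists_congr fun i => exists_congr fun x => this i x)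
  · rw [if_neg hc, if_neg hc, hD]

theorem wit_congr {D D' : Oracle} {v : List Bool}
    (h : ∀ t < v.length, D' (adr tC t v) = D (adr tC t v)) : wit D' v = wit D v := rd_congr h

/-- The values of the oracle at `q` depend on the values at shorter strings. -/
theorem step_congr {H H' D D' : Oracle} {q : List Bool}
    (h : ∀ q' : List Bool, q'.length < q.length → H' q' = H q')
    (h1 : ∀ v : List Bool, q = true :: v → bb D' v = bb D v)
    (h2 : ∀ (κ : Bool) (q' : List Bool), q = false :: κ :: q' →
      D' (adr tM 0 (q'.take (q'.length / 2))) = D (adr tM 0 (q'.take (q'.length / 2))) ∧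
      ∀ t < (q'.take (q'.length / 2)).length, D' (adr tC t (q'.take (q'.length / 2))) =
        D (adr tC t (q'.take (q'.length / 2)))) :
    step H' D' q = step H D q := by
  match q, h, h1, h2 with
  | [], _, _, _ => rfl
  | true :: v, _, h1, _ => exact h1 v rfl
  | [false], _, _, _ => rfl
  | false :: κ :: q, h, _, h2 =>
    obtain ⟨h3, h4⟩ := h2 κ q rfl
    have h5 : val H' D' (q.take (q.length / 2)) = val H D (q.take (q.length / 2)) := by
      refine val_congr (fun q' hq' => h q' ?_) h3
      rw [List.length_take] at hq'
      simp only [List.length_cons]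
      omega
    simp only [step, h5, wit_congr h4]

/-- The iteration. -/
noncomputable def it (D : Oracle) : ℕ → Oracle
  | 0 => fun _ => false
  | k + 1 => step (it D k) D

theorem it_eq (D : Oracle) (n : ℕ) : ∀ q : List Bool, q.length < n → ∀ k l, q.length < k →
    q.length < l → it D k q = it D l q := by
  induction n with
  | zero => intro q hq; omega
  | succ n ih =>
    intro q hq k l hk hl
    obtain ⟨k, rfl⟩ : ∃ k', k = k' + 1 := ⟨k - 1, by omega⟩
    obtain ⟨l, rfl⟩ : ∃ l', l = l' + 1 := ⟨l - 1, by omega⟩
    exact step_congr (fun q' hq' => ih q' (by omega) k l (by omega) (by omega)) (fun _ _ => rfl)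
      fun _ _ _ => ⟨rfl, fun _ _ => rfl⟩

/-- The oracle given by the data `D`. -/
noncomputable def G (D : Oracle) : Oracle := fun q => it D (q.length + 1) q

theorem G_eq (D : Oracle) (q : List Bool) : G D q = step (G D) D q :=
  step_congr (H := G D) (H' := it D q.length) (fun q' hq' =>
    it_eq D (q'.length + 1) q' (by omega) q.length (q'.length + 1) hq' (by omega))
    (fun _ _ => rfl) fun _ _ _ => ⟨rfl, fun _ _ => rfl⟩

/-- The value of `v`. -/
noncomputable def kap (D : Oracle) (v : List Bool) : Bool := val (G D) D v

theorem G_true (D : Oracle) (v : List Bool) : G D (true :: v) = bb D v := by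
  rw [G_eq]; rfl

theorem G_code (D : Oracle) (κ : Bool) (q : List Bool) : G D (false :: κ :: q) = true ↔
    q.drop (q.length / 2) = wit D (q.take (q.length / 2)) ∧ κ = kap D (q.take (q.length / 2)) := by
  rw [G_eq]
  simp only [step, decide_eq_true_eq]
  rfl

theorem G_code' (D : Oracle) (κ : Bool) {v w : List Bool} (h : w.length = v.length) :
    G D (false :: κ :: (v ++ w)) = true ↔ w = wit D v ∧ κ = kap D v := by
  have h1 : (v ++ w).length / 2 = v.length := by rw [List.length_append]; omega
  rw [G_code, h1]
  simp

/-- The set of the instances with the value `true`. -/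
def setK (D : Oracle) : Set (List Bool) := {v | kap D v = true}
/-- The masked set. -/
def setA (D : Oracle) : Set (List Bool) := {v | kap D v ≠ bb D v}

theorem kap_cod (D : Oracle) {i : Ix} (hi : ok i) {p : ℕ} {x : List Bool}
    (hp : lbd (ex i) x.length ≤ p) : kap D (cod i p x) = true ↔ acc (G D) i x := by
  classical
  have hv : Valid (cod i p x) i x := ⟨hi, p, hp, rfl⟩
  have h1 : ∃ i' x', Valid (cod i p x) i' x' := ⟨i, x, hv⟩
  rw [kap, val, if_pos h1, decide_eq_true_eq]
  constructor
  · rintro ⟨j, y, h2, h3⟩
    obtain ⟨rfl, rfl⟩ := h2.unique hv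
    exact h3
  · intro h
    exact ⟨i, x, hv, h⟩

/-- The values for free strings. -/
theorem kap_free (D : Oracle) (v : List Bool) : kap D (false :: v) = D (adr tM 0 (false :: v)) := by
  have : ¬ ∃ i x, Valid (false :: v) i x := by
    rintro ⟨i, x, _, p, _, h⟩
    simp [cod, ones, List.replicate_succ] at h
  rw [kap, val, if_neg this]

/-! ### Locality -/

/-- Two data that agree on the places that matter for `G` at strings of length at most `n`. -/
theorem G_congr {D D' : Oracle} (n : ℕ)
    (h1 : ∀ v : List Bool, v.length < n → bb D' v = bb D v)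
    (h2 : ∀ v : List Bool, 2 * v.length + 2 ≤ n → D' (adr tM 0 v) = D (adr tM 0 v) ∧
      ∀ t < v.length, D' (adr tC t v) = D (adr tC t v)) :
    ∀ q : List Bool, q.length ≤ n → G D' q = G D q := by
  intro q hq
  obtain ⟨m, hm⟩ : ∃ m, q.length = m := ⟨_, rfl⟩
  induction m using Nat.strong_induction_on generalizing q with
  | _ m ih =>
    rw [G_eq, G_eq]
    refine step_congr (fun q' hq' => ih q'.length (by omega) q' (by omega) rfl) (fun v hv => ?_)
      fun κ q' hq' => ?_
    · refine h1 v ?_
      rw [hv, List.length_cons] at hq
      omega
    · have h3 : 2 * (q'.take (q'.length / 2)).length + 2 ≤ n := by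
        rw [hq', List.length_cons, List.length_cons] at hq
        rw [List.length_take]
        omega
      exact h2 _ h3

theorem kap_congr {D D' : Oracle} {v : List Bool}
    (h : ∀ q : List Bool, q.length < v.length → G D' q = G D q)
    (hD : D' (adr tM 0 v) = D (adr tM 0 v)) : kap D' v = kap D v := val_congr h hD

theorem G_local {n : ℕ} {D D' : Oracle} (h : Agree (n + 2) D D') : Agree n (G D) (G D') := by
  refine G_congr n (fun v hv => h _ ?_) fun v hv => ⟨h _ ?_, fun t ht => h _ ?_⟩
  · rw [length_adr]; simp only [tS, List.length_cons, List.length_nil]; omega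
  · rw [length_adr]; simp only [tM, List.length_cons, List.length_nil]; omega
  · rw [length_adr]; simp only [tC, List.length_cons, List.length_nil]; omega

theorem kap_local {v : List Bool} {D D' : Oracle} (h : Agree (v.length + 3) D D') :
    kap D' v = kap D v := by
  refine kap_congr (fun q hq => G_local (n := v.length) (h.mono (by omega)) q hq.le) (h _ ?_)
  rw [length_adr]; simp only [tM, List.length_cons, List.length_nil]; omega

theorem bb_local {v : List Bool} {D D' : Oracle} (h : Agree (v.length + 3) D D') :
    bb D' v = bb D v := by
  refine h _ ?_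
  rw [length_adr]; simp only [tS, List.length_cons, List.length_nil]; omega

end Pool.Agent.L0h34.CO
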