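import Pool.Agent.L0h34.CO.Base

/-! # The extension lemma -/

set_option autoImplicit false

namespace Pool.Agent.L0h34.CO

open Pool.Agent.L0h34.OM Pool.Agent.L0h34.RO MeasureTheory
open scoped ENNReal

/-- The place belongs to a string of length at least `n`. -/
def far (n : ℕ) (q : List Bool) : Prop := ∃ v : List Bool, n ≤ v.length ∧ q ∈ loc v

open Classical in
/-- Take the far places from `R`. -/
noncomputable def mx (n : ℕ) (D R : Oracle) : Oracle := fun q => if far n q then R q else D q

theorem far_M {n t : ℕ} {v : List Bool} : far n (adr tM t v) ↔ n ≤ v.length :=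
  ⟨fun ⟨v', h1, h2⟩ => by rwa [← loc_disjoint h2 ⟨t, Or.inr rfl⟩], fun h => ⟨v, h, t, Or.inr rfl⟩⟩

theorem far_C {n t : ℕ} {v : List Bool} : far n (adr tC t v) ↔ n ≤ v.length :=
  ⟨fun ⟨v', h1, h2⟩ => by rwa [← loc_disjoint h2 ⟨t, Or.inl rfl⟩], fun h => ⟨v, h, t, Or.inl rfl⟩⟩

theorem not_far_S {n t : ℕ} {v : List Bool} : ¬ far n (adr tS t v) := by
  rintro ⟨v', _, t', h | h⟩
  · have := (adr_inj (by rfl) h).1
    simp [tS, tC] at this
  · have := (adr_inj (by rfl) h).1
    simp [tS, tM] at this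

theorem not_far_of_length {n : ℕ} {q : List Bool} (h : q.length ≤ n + 2) : ¬ far n q := by
  rintro ⟨v, h1, t, h2 | h2⟩ <;> rw [h2, length_adr] at h <;>
    simp only [tC, tM, List.length_cons, List.length_nil] at h <;> omega

theorem mx_far {n : ℕ} {D R : Oracle} {q : List Bool} (h : far n q) : mx n D R q = R q := if_pos h

theorem mx_near {n : ℕ} {D R : Oracle} {q : List Bool} (h : ¬ far n q) : mx n D R q = D q :=
  if_neg h

theorem mx_local {N n : ℕ} {D R R' : Oracle} (h : Agree N R R') :
    Agree N (mx n D R) (mx n D R') := by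
  intro q hq
  by_cases hf : far n q
  · rw [mx_far hf, mx_far hf, h q hq]
  · rw [mx_near hf, mx_near hf]

theorem bb_mx (n : ℕ) (D R : Oracle) (v : List Bool) : bb (mx n D R) v = bb D v :=
  mx_near not_far_S

theorem G_mx (n : ℕ) (D R : Oracle) (q : List Bool) (hq : q.length ≤ 2 * n + 1) :
    G (mx n D R) q = G D q := by
  refine G_congr (2 * n + 1) (fun v _ => bb_mx n D R v) (fun v hv => ⟨mx_near ?_, fun t ht =>
    mx_near ?_⟩) q hq
  · rw [far_M]; omega
  · rw [far_C]; omega

theorem kap_mx (n : ℕ) (D R : Oracle) {v : List Bool} (hv : v.length < n) :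
    kap (mx n D R) v = kap D v :=
  kap_congr (fun q hq => G_mx n D R q (by omega)) (mx_near (by rw [far_M]; omega))

theorem wit_mx (n : ℕ) (D R : Oracle) {v : List Bool} (hv : v.length < n) :
    wit (mx n D R) v = wit D v :=
  wit_congr fun t _ => mx_near (by rw [far_C]; omega)

theorem wit_mx_far (n : ℕ) (D R : Oracle) {v : List Bool} (hv : n ≤ v.length) :
    wit (mx n D R) v = rd R tC v v.length :=
  rd_congr fun t _ => mx_far (by rw [far_C]; exact hv)

theorem kap_mx_free (n : ℕ) (D R : Oracle) {v : List Bool} (hv : n ≤ (false :: v).length) :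
    kap (mx n D R) (false :: v) = R (adr tM 0 (false :: v)) := by
  rw [kap_free, mx_far]
  rw [far_M]
  exact hv

/-- The part of the oracle that does not depend on the far places. -/
def vis (n : ℕ) (H : Oracle) : Oracle
  | false :: κ :: q => if n ≤ q.length / 2 then false else H (false :: κ :: q)
  | q => H q

theorem G_nil (D : Oracle) : G D [] = false := by rw [G_eq]; rfl

theorem G_one (D : Oracle) : G D [false] = false := by rw [G_eq]; rfl

theorem vis_mx (n : ℕ) (D R : Oracle) : vis n (G (mx n D R)) = vis n (G D) := by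
  funext q
  match q with
  | [] => simp only [vis, G_nil]
  | true :: v => simp only [vis, G_true, bb_mx]
  | [false] => simp only [vis, G_one]
  | false :: κ :: q =>
    simp only [vis]
    split_ifs with h
    · rfl
    · have h1 : (q.take (q.length / 2)).length < n := by rw [List.length_take]; omega
      rw [Bool.eq_iff_iff, G_code, G_code, wit_mx n D R h1, kap_mx n D R h1]

/-! ### Changing the masks -/

open Classical in
/-- Change the masks of the strings in `S`. -/
noncomputable def md (D : Oracle) (S : Set (List Bool)) : Oracle :=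
  fun q => if ∃ y ∈ S, q = adr tS 0 y then !D q else D q

theorem bb_md (D : Oracle) (S : Set (List Bool)) (y : List Bool) [Decidable (y ∈ S)] :
    bb (md D S) y = if y ∈ S then !bb D y else bb D y := by
  have : (∃ y' ∈ S, adr tS 0 y = adr tS 0 y') ↔ y ∈ S :=
    ⟨fun ⟨y', h1, h2⟩ => by rwa [(adr_inj rfl h2).2.2], fun h => ⟨y, h, rfl⟩⟩
  simp only [bb, md, this]

theorem md_of_ne {D : Oracle} {S : Set (List Bool)} {q : List Bool}
    (h : ∀ y ∈ S, q ≠ adr tS 0 y) : md D S q = D q :=
  if_neg (by rintro ⟨y, h1, h2⟩; exact h y h1 h2)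

/-- The data `D'` differs from `D` only in the masks of strings of length at least `l`. -/
def Above (l : ℕ) (D D' : Oracle) : Prop :=
  ∀ q : List Bool, (∀ y : List Bool, l ≤ y.length → q ≠ adr tS 0 y) → D' q = D q

theorem Above.trans {l : ℕ} {D D' D'' : Oracle} (h : Above l D D') (h' : Above l D' D'') :
    Above l D D'' := fun q hq => (h' q hq).trans (h q hq)

theorem Above.mono {l l' : ℕ} {D D' : Oracle} (h : Above l' D D') (hl : l ≤ l') : Above l D D' :=
  fun q hq => h q fun y hy => hq y (hl.trans hy)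

theorem Above.kap {l : ℕ} {D D' : Oracle} (h : Above l D D') {v : List Bool} (hv : v.length ≤ l) :
    kap D' v = kap D v := by
  refine kap_congr (fun q hq => G_congr l (fun v hv => h _ fun y hy h' => ?_) (fun v hv => ⟨h _
    fun y _ h' => ?_, fun t _ => h _ fun y _ h' => ?_⟩) q (by omega)) (h _ fun y _ h' => ?_)
  · have := (adr_inj rfl h').2.2
    rw [this] at hv
    omega
  · have := (adr_inj (by rfl) h').1
    simp [tM, tS] at this
  · have := (adr_inj (by rfl) h').1
    simp [tC, tS] at this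
  · have := (adr_inj (by rfl) h').1
    simp [tM, tS] at this

theorem Above.mx {l : ℕ} {D D' : Oracle} (h : Above l D D') (n : ℕ) (R : Oracle) :
    Above l (mx n D R) (mx n D' R) := by
  intro q hq
  by_cases hf : far n q
  · rw [mx_far hf, mx_far hf]
  · rw [mx_near hf, mx_near hf, h q hq]

theorem above_md (D : Oracle) {S : Set (List Bool)} {l : ℕ} (hS : ∀ y ∈ S, l ≤ y.length) :
    Above l D (md D S) := fun _ hq => md_of_ne fun y hy => hq y (hS y hy)

/-- The event that the masked value of `y` is the value of `x`. -/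
def Ev (n : ℕ) (D : Oracle) (x y : List Bool) : Set Oracle :=
  {R | kap (mx n D R) x = xor (kap (mx n D R) y) (bb D y)}

theorem measurable_Ev (n : ℕ) (D : Oracle) (x y : List Bool) : MeasurableSet (Ev n D x y) := by
  refine Lc.meas (N := x.length + y.length + 3) (P := fun R =>
    kap (mx n D R) x = xor (kap (mx n D R) y) (bb D y)) ?_
  intro R R' h h1
  have h2 := mx_local (n := n) (D := D) h
  rw [kap_local (h2.mono (by omega)), kap_local (h2.mono (by omega))]
  exact h1

theorem exists_masks (n : ℕ) (D : Oracle) {x : List Bool} (hx : x.length = n) (j : ℕ) :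
    ∃ D', Above n D D' ∧ ∀ y : List Bool, n ≤ y.length → y.length < n + j →
      2 * randomOracle (Ev n D' x y) ≤ 1 := by
  classical
  induction j with
  | zero => exact ⟨D, fun _ _ => rfl, fun y h1 h2 => by omega⟩
  | succ j ih =>
    obtain ⟨D1, h1, h2⟩ := ih
    obtain ⟨S, hS⟩ : ∃ S : Set (List Bool), S = {y | y.length = n + j ∧
      ¬ 2 * randomOracle (Ev n D1 x y) ≤ 1} := ⟨_, rfl⟩
    have hab : Above (n + j) D1 (md D1 S) := above_md D1 fun y hy => by
      rw [hS] at hy; exact hy.1.ge
    refine ⟨md D1 S, h1.trans (hab.mono (by omega)), fun y hy1 hy2 => ?_⟩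
    have hk : ∀ R, ∀ v : List Bool, v.length ≤ n + j → kap (mx n (md D1 S) R) v =
        kap (mx n D1 R) v := fun R v hv => (hab.mx n R).kap hv
    by_cases hyS : y ∈ S
    · have h3 : y.length = n + j ∧ ¬ 2 * randomOracle (Ev n D1 x y) ≤ 1 := by rwa [hS] at hyS
      have h4 : Ev n (md D1 S) x y = (Ev n D1 x y)ᶜ := by
        ext R
        simp only [Ev, Set.mem_ofPred_eq, Set.mem_compl_iff]
        rw [hk R x (by omega), hk R y (by omega), bb_md, if_pos hyS]
        generalize kap (mx n D1 R) x = a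
        generalize kap (mx n D1 R) y = b
        generalize bb D1 y = c
        revert a b c
        decide
      rw [h4, prob_compl_eq_one_sub (measurable_Ev n D1 x y)]
      have h5 := (not_le.1 h3.2).le
      rw [ENNReal.mul_sub (fun _ _ => by norm_num), mul_one, tsub_le_iff_right]
      calc (2 : ℝ≥0∞) = 1 + 1 := one_add_one_eq_two.symm
        _ ≤ 1 + 2 * randomOracle (Ev n D1 x y) := add_le_add_right h5 1
    · have h4 : Ev n (md D1 S) x y = Ev n D1 x y := by
        ext R
        simp only [Ev, Set.mem_ofPred_eq]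
        rw [hk R x (by omega), hk R y (by omega), bb_md, if_neg hyS]
      rw [h4]
      rcases Nat.lt_or_ge y.length (n + j) with h | h
      · exact h2 y hy1 h
      · by_contra hcon
        apply hyS
        rw [hS]
        exact ⟨by omega, hcon⟩

/-! ### Small probabilities -/

theorem measure_rd_const_le (τ Q w : List Bool) (ℓ : ℕ) :
    (2 : ℝ≥0∞) ^ ℓ * randomOracle {R | w = rd R τ Q ℓ} ≤ 1 := by
  have h1 := measure_le_of_translates (K := Fin ℓ → Bool) (fun v => RO.tr τ Q v)
    (P := {R | w = rd R τ Q ℓ}) (Lc.meas (N := τ.length + ℓ + Q.length)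
      (fun R R' hA h => by rw [rd_local hA (by omega)]; exact h)) 1 (by
      intro R s hs
      rw [Finset.card_le_one]
      intro v hv v' hv'
      have h2 := hs v hv
      have h3 := hs v' hv'
      simp only [Set.mem_ofPred_eq] at h2 h3
      exact rd_xr_inj (h2.symm.trans h3))
  simpa using h1

theorem measure_bit_le (τ Q : List Bool) (c : Bool) :
    2 * randomOracle {R | R (adr τ 0 Q) = c} ≤ 1 := by
  have h := measure_rd_const_le τ Q [c] 1
  rw [pow_one] at h
  refine le_trans (mul_le_mul_right (measure_mono fun R hR => ?_) _) h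
  simp only [Set.mem_ofPred_eq] at hR ⊢
  simp [rd, hR]

/-- The event that the witness in the query `q` is right. -/
def Hit (n : ℕ) (D : Oracle) (q : List Bool) : Set Oracle :=
  {R | ∃ κ q', q = false :: κ :: q' ∧ n ≤ q'.length / 2 ∧
    q'.drop (q'.length / 2) = wit (mx n D R) (q'.take (q'.length / 2))}

theorem measure_hit (n : ℕ) (D : Oracle) (q : List Bool) :
    (2 : ℝ≥0∞) ^ n * randomOracle (Hit n D q) ≤ 1 := by
  by_cases h : ∃ κ q', q = false :: κ :: q' ∧ n ≤ q'.length / 2
  · obtain ⟨κ, q', rfl, h2⟩ := h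
    have hl : (q'.take (q'.length / 2)).length = q'.length / 2 := by rw [List.length_take]; omega
    refine le_trans ?_ (measure_rd_const_le tC (q'.take (q'.length / 2))
      (q'.drop (q'.length / 2)) (q'.take (q'.length / 2)).length)
    rw [hl]
    refine mul_le_mul' (pow_le_pow_right₀ (by norm_num) h2) (measure_mono fun R hR => ?_)
    obtain ⟨κ', q'', h3, _, h4⟩ := hR
    simp only [List.cons.injEq, true_and] at h3
    obtain ⟨_, rfl⟩ := h3
    rw [wit_mx_far n D R (by rw [hl]; exact h2), hl] at h4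
    exact h4
  · have : Hit n D q = ∅ := by
      ext R
      simp only [Hit, Set.mem_ofPred_eq, Set.mem_empty_iff_false, iff_false]
      rintro ⟨κ, q', h1, h2, _⟩
      exact h ⟨κ, q', h1, h2⟩
    rw [this]
    simp

/-- The core of the extension lemma. -/
theorem ext_core {u : Prog} {n T : ℕ} (hT : 2 * T < 2 ^ n)
    (hu : ∀ (R : Oracle) (x : List Bool), x.length = n → ∃ (s t : ℕ) (τ : Store),
      Run R s u (init x) t τ ∧ t ≤ T) (D : Oracle) {x : List Bool} (hx : x.length = n)
    (tgt : List Bool → Oracle → Bool)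
    (hP : ∀ z : List Bool, z.length ≤ n + T →
      2 * randomOracle {R | kap (mx n D R) x = tgt z R} ≤ 1) :
    ∃ R z, Output (G (mx n D R)) u x z ∧ kap (mx n D R) x ≠ tgt z R := by
  classical
  obtain ⟨s, t, τ, h1, h2⟩ := hu (vis n (G D)) x hx
  have hz : (τ 0).length ≤ n + T := by
    have := (h1.length_le (init_length x)).1 0
    omega
  obtain ⟨Q, h3, _, h4⟩ := run_support h1
  have hbad : 2 * randomOracle (⋃ q ∈ Q, Hit n D q) < 1 := by
    have h5 := measure_biUnion_le' Q (fun q => Hit n D q) (a := 2 ^ n) (b := 1) (c := T)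
      (h3.trans h2) fun q _ => measure_hit n D q
    rw [mul_one] at h5
    by_contra hcon
    have h6 : (2 : ℝ≥0∞) ^ n ≤ 2 * T := by
      calc (2 : ℝ≥0∞) ^ n = 2 ^ n * 1 := (mul_one _).symm
        _ ≤ 2 ^ n * (2 * randomOracle (⋃ q ∈ Q, Hit n D q)) := mul_le_mul_right (not_lt.1 hcon) _
        _ = 2 * (2 ^ n * randomOracle (⋃ q ∈ Q, Hit n D q)) := by ring
        _ ≤ 2 * T := mul_le_mul_right h5 _
    have h7 : (2 : ℝ≥0∞) ^ n = ((2 ^ n : ℕ) : ℝ≥0∞) := by push_cast; rfl
    have h8 : (2 : ℝ≥0∞) * T = ((2 * T : ℕ) : ℝ≥0∞) := by push_cast; rfl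
    rw [h7, h8, Nat.cast_le] at h6
    omega
  have hex : ∃ R, R ∉ {R | kap (mx n D R) x = tgt (τ 0) R} ∪ ⋃ q ∈ Q, Hit n D q := by
    by_contra hcon
    push Not at hcon
    have h5 : ({R | kap (mx n D R) x = tgt (τ 0) R} ∪ ⋃ q ∈ Q, Hit n D q) = Set.univ :=
      Set.eq_univ_of_forall hcon
    have h6 := measure_union_le (μ := randomOracle) {R | kap (mx n D R) x = tgt (τ 0) R}
      (⋃ q ∈ Q, Hit n D q)
    rw [h5, measure_univ] at h6
    have h7 : (2 : ℝ≥0∞) * 1 < 1 + 1 := by
      calc (2 : ℝ≥0∞) * 1 ≤ 2 * (randomOracle {R | kap (mx n D R) x = tgt (τ 0) R} +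
            randomOracle (⋃ q ∈ Q, Hit n D q)) := mul_le_mul_right h6 _
        _ = 2 * randomOracle {R | kap (mx n D R) x = tgt (τ 0) R} +
            2 * randomOracle (⋃ q ∈ Q, Hit n D q) := mul_add _ _ _
        _ < 1 + 1 := ENNReal.add_lt_add_of_le_of_lt (by
            exact ne_top_of_le_ne_top ENNReal.one_ne_top (hP _ hz)) (hP _ hz) hbad
    rw [mul_one, one_add_one_eq_two] at h7
    exact lt_irrefl _ h7
  obtain ⟨R, hR⟩ := hex
  rw [Set.mem_union, not_or] at hR
  obtain ⟨hR1, hR2⟩ := hR
  refine ⟨R, τ 0, ⟨s, t, τ, h4 _ fun q hq => ?_, rfl⟩, hR1⟩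
  have h5 : vis n (G D) q = vis n (G (mx n D R)) q := by rw [vis_mx]
  rw [h5]
  match q, hq with
  | [], _ => rfl
  | true :: v, _ => rfl
  | [false], _ => rfl
  | false :: κ :: q', hq =>
    simp only [vis]
    split_ifs with h6
    · rw [Bool.eq_false_iff]
      intro h7
      rw [G_code] at h7
      refine hR2 (Set.mem_biUnion hq ⟨κ, q', rfl, h6, h7.1⟩)
    · rfl

/-- The program `u` is fast on arbitrarily long inputs. -/
def Fast (u : Prog) : Prop := ∀ N : ℕ, ∃ n ≥ N, ∃ T : ℕ, 2 * T < 2 ^ n ∧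
  ∀ (R : Oracle) (x : List Bool), x.length = n → ∃ (s t : ℕ) (τ : Store),
    Run R s u (init x) t τ ∧ t ≤ T

theorem agree_mx {n : ℕ} {D D1 : Oracle} (h : Above n D D1) (R : Oracle) :
    Agree n D (mx n D1 R) := by
  intro q hq
  rw [mx_near (not_far_of_length (by omega)), h]
  intro y hy h'
  rw [h', length_adr] at hq
  simp only [tS, List.length_cons, List.length_nil] at hq
  omega

/-- Extension: the many-one reduction fails. -/
theorem ext_red {u : Prog} (hu : Fast u) (D : Oracle) (N : ℕ) : ∃ D', Agree N D D' ∧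
    ∃ x z, Output (G D') u x z ∧ ¬ (x ∈ setK D' ↔ z ∈ setA D') := by
  obtain ⟨n, hn, T, h1, h2⟩ := hu (N + 1)
  obtain ⟨x, hx⟩ : ∃ x : List Bool, x = false :: List.replicate (n - 1) false := ⟨_, rfl⟩
  have hxl : x.length = n := by rw [hx]; simp; omega
  obtain ⟨D1, h3, h4⟩ := exists_masks n D hxl (T + 1)
  obtain ⟨R, z, h5, h6⟩ := ext_core h1 h2 D1 hxl
    (fun z R => xor (kap (mx n D1 R) z) (bb D1 z)) (by
      intro z hz
      rcases Nat.lt_or_ge z.length n with h | h
      · have h7 : {R | kap (mx n D1 R) x = xor (kap (mx n D1 R) z) (bb D1 z)} =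
            {R | R (adr tM 0 x) = xor (kap D1 z) (bb D1 z)} := by
          ext R
          simp only [Set.mem_ofPred_eq]
          rw [kap_mx n D1 R h]
          have h8 : kap (mx n D1 R) x = R (adr tM 0 x) := by
            subst hx
            exact kap_mx_free n D1 R hxl.ge
          rw [h8]
        rw [h7]
        exact measure_bit_le _ _ _
      · exact h4 z h (by omega))
  refine ⟨mx n D1 R, (agree_mx h3 R).mono (by omega), x, z, h5, fun h => h6 ?_⟩
  simp only [setK, setA, Set.mem_ofPred_eq, bb_mx] at h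
  revert h
  generalize kap (mx n D1 R) x = a
  generalize kap (mx n D1 R) z = b
  generalize bb D1 z = c
  revert a b c
  decide

/-- Extension: the decision procedure fails. -/
theorem ext_dec {u : Prog} (hu : Fast u) (D : Oracle) (N : ℕ) : ∃ D', Agree N D D' ∧
    ∃ x z, Output (G D') u x z ∧ ¬ (x ∈ setK D' ↔ z ≠ []) := by
  classical
  obtain ⟨n, hn, T, h1, h2⟩ := hu (N + 1)
  obtain ⟨x, hx⟩ : ∃ x : List Bool, x = false :: List.replicate (n - 1) false := ⟨_, rfl⟩
  have hxl : x.length = n := by rw [hx]; simp; omega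
  obtain ⟨R, z, h5, h6⟩ := ext_core h1 h2 D hxl
    (fun z _ => decide (z ≠ [])) (by
      intro z hz
      have h7 : {R | kap (mx n D R) x = decide (z ≠ [])} =
          {R | R (adr tM 0 x) = decide (z ≠ [])} := by
        ext R
        simp only [Set.mem_ofPred_eq]
        have h8 : kap (mx n D R) x = R (adr tM 0 x) := by
          subst hx
          exact kap_mx_free n D R hxl.ge
        rw [h8]
      rw [h7]
      exact measure_bit_le _ _ _)
  refine ⟨mx n D R, (agree_mx (fun _ _ => rfl) R).mono (by omega), x, z, h5, fun h => h6 ?_⟩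
  simp only [setK, Set.mem_ofPred_eq] at h
  rw [Bool.eq_iff_iff, h, decide_eq_true_eq]

/-! ### Baire category -/

theorem isOpen_of_ext {P : Oracle → Prop} (h : ∀ D, P D → ∃ N, ∀ D', Agree N D D' → P D') :
    IsOpen {D | P D} := by
  rw [isOpen_iff_forall_mem_open]
  intro D hD
  obtain ⟨N, hN⟩ := h D hD
  exact ⟨{D' | Agree N D D'}, fun D' hD' => hN D' hD', isOpen_agree N D, fun q _ => rfl⟩

theorem dense_of_ext {P : Oracle → Prop} (h : ∀ D N, ∃ D', Agree N D D' ∧ P D') :
    Dense {D | P D} := by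
  rw [dense_iff_inter_open]
  intro U hU hne
  obtain ⟨D, hD⟩ := hne
  obtain ⟨I, v, h1, h2⟩ := isOpen_pi_iff.1 hU D hD
  obtain ⟨D', h3, h4⟩ := h D (I.sup List.length)
  refine ⟨D', h2 fun q hq => ?_, h4⟩
  have hq' : q ∈ I := hq
  rw [h3 q (Finset.le_sup (f := List.length) hq')]
  exact (h1 q hq').2

theorem output_local {D : Oracle} {u : Prog} {x z : List Bool} (h : Output (G D) u x z) :
    ∃ N, ∀ D', Agree N D D' → Output (G D') u x z := by
  obtain ⟨s, t, τ, h1, h2⟩ := h
  refine ⟨s + 2, fun D' h3 => ⟨s, t, τ, h1.local_length fun q hq => ?_, h2⟩⟩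
  exact G_local h3 q hq

theorem exists_data : ∃ D : Oracle, ∀ u : Prog, Fast u →
    (∃ x z, Output (G D) u x z ∧ ¬ (x ∈ setK D ↔ z ∈ setA D)) ∧
    (∃ x z, Output (G D) u x z ∧ ¬ (x ∈ setK D ↔ z ≠ [])) := by
  have hd : Dense (⋂ u : Prog, ({D : Oracle | Fast u → ∃ x z, Output (G D) u x z ∧
      ¬ (x ∈ setK D ↔ z ∈ setA D)} ∩ {D : Oracle | Fast u → ∃ x z, Output (G D) u x z ∧
      ¬ (x ∈ setK D ↔ z ≠ [])})) := by
    refine dense_iInter_of_isOpen (fun u => IsOpen.inter ?_ ?_) fun u => Dense.inter_of_isOpen_left ?_ ?_ ?_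
    · refine isOpen_of_ext fun D hD => ?_
      by_cases hu : Fast u
      swap
      · exact ⟨0, fun D' _ h => absurd h hu⟩
      obtain ⟨x, z, h1, h2⟩ := hD hu
      obtain ⟨N, hN⟩ := output_local h1
      refine ⟨N + x.length + z.length + 3, fun D' h3 _ => ⟨x, z, hN D' (h3.mono (by omega)), ?_⟩⟩
      simp only [setK, setA, Set.mem_ofPred_eq] at h2 ⊢
      rwa [kap_local (h3.mono (by omega)), kap_local (h3.mono (by omega)),
        bb_local (h3.mono (by omega))]
    · refine isOpen_of_ext fun D hD => ?_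
      by_cases hu : Fast u
      swap
      · exact ⟨0, fun D' _ h => absurd h hu⟩
      obtain ⟨x, z, h1, h2⟩ := hD hu
      obtain ⟨N, hN⟩ := output_local h1
      refine ⟨N + x.length + z.length + 3, fun D' h3 _ => ⟨x, z, hN D' (h3.mono (by omega)), ?_⟩⟩
      simp only [setK, Set.mem_ofPred_eq] at h2 ⊢
      rwa [kap_local (h3.mono (by omega))]
    · refine dense_of_ext fun D N => ?_
      by_cases hu : Fast u
      swap
      · exact ⟨D, fun _ _ => rfl, fun h => absurd h hu⟩
      obtain ⟨D', h1, h2⟩ := ext_red hu D N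
      exact ⟨D', h1, fun _ => h2⟩
    · refine dense_of_ext fun D N => ?_
      by_cases hu : Fast u
      swap
      · exact ⟨D, fun _ _ => rfl, fun h => absurd h hu⟩
      obtain ⟨D', h1, h2⟩ := ext_dec hu D N
      exact ⟨D', h1, fun _ => h2⟩
    · refine isOpen_of_ext fun D hD => ?_
      by_cases hu : Fast u
      swap
      · exact ⟨0, fun D' _ h => absurd h hu⟩
      obtain ⟨x, z, h1, h2⟩ := hD hu
      obtain ⟨N, hN⟩ := output_local h1
      refine ⟨N + x.length + z.length + 3, fun D' h3 _ => ⟨x, z, hN D' (h3.mono (by omega)), ?_⟩⟩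
      simp only [setK, setA, Set.mem_ofPred_eq] at h2 ⊢
      rwa [kap_local (h3.mono (by omega)), kap_local (h3.mono (by omega)),
        bb_local (h3.mono (by omega))]
  obtain ⟨D, hD⟩ := hd.nonempty
  refine ⟨D, fun u hu => ?_⟩
  have := Set.mem_iInter.1 hD u
  exact ⟨this.1 hu, this.2 hu⟩

end Pool.Agent.L0h34.CO
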