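import Pool.Agent.L0h34.CO.Prog

/-! # One query and many-one completeness differ relative to an oracle -/

set_option autoImplicit false

namespace Pool.Agent.L0h34.CO

open Pool.Agent.L0h34.OM Pool.Agent.L0h34.RO

/-- With the oracle `R`, the function `f` is computed by a program that stops after at most `t n` steps
on the inputs of length `n`, for all oracles. -/
def TimeU (R : Oracle) (t : ℕ → ℕ) (f : List Bool → List Bool) : Prop :=
  ∃ u : Prog, (∀ (R' : Oracle) (x : List Bool), ∃ (s t' : ℕ) (τ : Store),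
    Run R' s u (init x) t' τ ∧ t' ≤ t x.length) ∧ ∀ x, Output R u x (f x)

theorem pt_self (s : List Bool) : pt s.length s = s := by
  have := pt_append s []
  rwa [List.append_nil] at this

theorem npu_of_ver {R : Oracle} {u : Prog} {F : ℕ → ℕ} (hF : PB F)
    {g : Oracle → List Bool → List Bool → Bool}
    (h : ∀ (R : Oracle) (x W : List Bool), ∃ τ : Store, τ 0 = cc (g R x W) ∧
      Go R u (init2 x W) (F x.length) τ) : NPU R {x | ∃ W, g R x W = true} := by
  obtain ⟨c, hc⟩ := hF
  refine ⟨u, c, fun R x W => ?_, fun x => ?_⟩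
  · obtain ⟨τ, _, s, t, h2, h3⟩ := h R x W
    exact ⟨s, t, τ, h3, h2.trans (hc _)⟩
  · constructor
    · rintro ⟨W, hW⟩
      obtain ⟨τ, h1, s, t, _, h3⟩ := h R x W
      refine ⟨W, s, t, τ, h3, ?_⟩
      rw [h1, hW]
      simp [cc]
    · rintro ⟨W, s, t, τ, h1, h2⟩
      obtain ⟨τ', h1', s', t', _, h3'⟩ := h R x W
      refine ⟨W, ?_⟩
      rw [(h1.det h3').2, h1'] at h2
      by_contra hcon
      rw [Bool.not_eq_true] at hcon
      rw [hcon] at h2
      exact h2 (by simp [cc])

theorem code_iff (D : Oracle) (κ : Bool) (v : List Bool) :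
    (∃ W, G D (false :: κ :: (v ++ pt v.length W)) = true) ↔ κ = kap D v := by
  constructor
  · rintro ⟨W, hW⟩
    exact ((G_code' D κ (length_pt _ _)).1 hW).2
  · intro h
    refine ⟨wit D v, ?_⟩
    have : pt v.length (wit D v) = wit D v := by
      have := pt_self (wit D v)
      rwa [length_wit] at this
    rw [this]
    exact (G_code' D κ (length_wit D v)).2 ⟨rfl, h⟩

theorem npu_setK (D : Oracle) : NPU (G D) (setK D) := by
  have h := npu_of_ver (R := G D) (u := verK) (F := fun n => 20 * n + 30)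
    (((PB.const 20).mul PB.id).add (PB.const 30))
    (g := fun R v W => R (false :: true :: (v ++ pt v.length W))) (fun R v W => by
      rw [init2_eq]
      exact go_verK)
  have e : setK D = {v | ∃ W, G D (false :: true :: (v ++ pt v.length W)) = true} := by
    ext v
    simp only [Set.mem_ofPred_eq, setK, code_iff]
    exact eq_comm
  rw [e]
  exact h

theorem npu_setA (D : Oracle) : NPU (G D) (setA D) := by
  have h := npu_of_ver (R := G D) (u := verA) (F := fun n => 28 * n + 60)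
    (((PB.const 28).mul PB.id).add (PB.const 60))
    (g := fun R v W => R (false :: (!R (true :: v)) :: (v ++ pt v.length W))) (fun R v W => by
      rw [init2_eq]
      exact go_verA)
  have e : setA D = {v | ∃ W, G D (false :: (!G D (true :: v)) :: (v ++ pt v.length W)) = true} := by
    ext v
    simp only [Set.mem_ofPred_eq, setA, code_iff, G_true]
    generalize kap D v = a
    generalize bb D v = b
    revert a b
    decide
  rw [e]
  exact h

/-- The instance of the machine `i` for the input `x`. -/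
noncomputable def inst (i : Ix) (x : List Bool) : List Bool :=
  cod i ((x.length + (ex i + 20)) ^ eM (ex i) 0) x

theorem kap_inst (D : Oracle) {i : Ix} (hi : ok i) (x : List Bool) :
    kap D (inst i x) = true ↔ acc (G D) i x := by
  refine kap_cod D hi ?_
  have := par1_lb (cA := ex i) (cB := 0) (C := ex i + 20) (by omega) x.length
  omega

theorem inst_length (i : Ix) (x : List Bool) : (inst i x).length =
    pc i + (x.length + (ex i + 20)) ^ eM (ex i) 0 + x.length + 3 := by
  simp only [inst, cod, ones, List.length_append, List.length_replicate, List.length_cons]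
  omega

/-- The bound for the time of the computation of the instance. -/
noncomputable def tI (i : Ix) (n : ℕ) : ℕ :=
  30 * (n + (ex i + 20)) + 20 * (n + (ex i + 20)) ^ eM (ex i) 0 + 10 * (pc i + 1) + 50 +
    (eM (ex i) 0 * (10 * (n + (ex i + 20)) * (n + (ex i + 20) + 1) ^ eM (ex i) 0 +
      10 * (n + (ex i + 20)) + 10) + 1)

theorem pb_tI (i : Ix) : PB (tI i) := by
  have pb : PB fun n => n + (ex i + 20) := PB.id.add (PB.const _)
  have pq : PB fun n => eM (ex i) 0 * (10 * (n + (ex i + 20)) * (n + (ex i + 20) + 1) ^ eM (ex i) 0 +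
      10 * (n + (ex i + 20)) + 10) + 1 :=
    ((PB.const _).mul (((((PB.const 10).mul pb).mul ((pb.add (PB.const 1)).pow _)).add
      ((PB.const 10).mul pb)).add (PB.const 10))).add (PB.const 1)
  exact (((((PB.const 30).mul pb).add ((PB.const 20).mul (pb.pow _))).add (PB.const _)).add
    (PB.const 50)).add pq

theorem pb_len (i : Ix) : PB fun n => pc i + (n + (ex i + 20)) ^ eM (ex i) 0 + n + 3 :=
  (((PB.const _).add ((PB.id.add (PB.const _)).pow _)).add PB.id).add (PB.const 3)

theorem go_inst (R : Oracle) (i : Ix) (x W : List Bool) :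
    Go R (codP (pc i + 1) (ex i + 20) (eM (ex i) 0))
      (st [x, W, [], [], [], [], [], [], [], [], [], [], [], [], [], [], [], [], [], []]) (tI i x.length)
      (st [inst i x, W, [], [], [], [], [], [], [], [], [], [], [], [], [], [], [], [], [], []]) :=
  go_codP (G := R) (pc i + 1) (ex i + 20) (eM (ex i) 0) (X := x) (W := W) rfl

theorem npu_coded (D : Oracle) {i : Ix} (hi : ok i) : NPU (G D) {x | acc (G D) i x} := by
  have h := npu_of_ver (R := G D) (u := .seq (codP (pc i + 1) (ex i + 20) (eM (ex i) 0)) verK)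
    (F := fun n => tI i n + (20 * (pc i + (n + (ex i + 20)) ^ eM (ex i) 0 + n + 3) + 30))
    ((pb_tI i).add (((PB.const 20).mul (pb_len i)).add (PB.const 30)))
    (g := fun R x W => R (false :: true :: (inst i x ++ pt (inst i x).length W)))
    (fun R x W => by
      obtain ⟨τ, h1, h2⟩ := go_verK (G := R) (V := inst i x) (W := W)
      refine ⟨τ, h1, ?_⟩
      rw [init2_eq]
      have h3 := (go_inst R i x W).seq h2
      rw [inst_length] at h3
      exact h3)
  have e : {x | acc (G D) i x} =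
      {x | ∃ W, G D (false :: true :: (inst i x ++ pt (inst i x).length W)) = true} := by
    ext x
    simp only [Set.mem_ofPred_eq]
    rw [← kap_inst D hi x, code_iff D true (inst i x)]
    exact eq_comm
  rw [e]
  exact h

theorem pspace_le_np (D : Oracle) {L : Set (List Bool)} (h : PSPACEU (G D) L) :
    NPU (G D) L := by
  obtain ⟨u, c, h1, h2⟩ := h
  have h3 := npu_coded D (i := (true, u, c)) h1
  have e : L = {x | acc (G D) (true, u, c) x} := by
    ext x; exact h2 x
  rw [e]
  exact h3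

theorem oneQuery_of_coded (D : Oracle) {i : Ix} (hi : ok i) {B : Set (List Bool)}
    (hB : ∀ x, x ∈ B ↔ acc (G D) i x) : OneQueryU (G D) B (setA D) := by
  obtain ⟨c, hc⟩ : PB fun n => tI i n + (20 * (pc i + (n + (ex i + 20)) ^ eM (ex i) 0 + n + 3) + 60) :=
    (pb_tI i).add (((PB.const 20).mul (pb_len i)).add (PB.const 60))
  have key : ∀ (R : Oracle) (x : List Bool), ∃ (s t : ℕ) (τ : Store),
      Run R s (.seq (codP (pc i + 1) (ex i + 20) (eM (ex i) 0)) outP) (init x) t τ ∧
      t ≤ x.length ^ c + c ∧ τ 0 = R (true :: inst i x) :: (!R (true :: inst i x)) :: inst i x := by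
    intro R x
    obtain ⟨τ, h1, h2⟩ := go_outP (G := R) (V := inst i x) (W := [])
    obtain ⟨s, t, h4, h5⟩ := (go_inst R i x []).seq h2
    rw [inst_length] at h4
    refine ⟨s, t, τ, ?_, h4.trans (hc _), h1⟩
    rw [init_eq20]
    exact h5
  refine ⟨fun x => G D (true :: inst i x) :: (!G D (true :: inst i x)) :: inst i x,
    ⟨.seq (codP (pc i + 1) (ex i + 20) (eM (ex i) 0)) outP, c, fun R x => ?_, fun x => ?_⟩,
    fun x => ⟨_, _, _, rfl, ?_⟩⟩
  · obtain ⟨s, t, τ, h1, h2, _⟩ := key R x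
    exact ⟨s, t, τ, h1, h2⟩
  · obtain ⟨s, t, τ, h1, _, h3⟩ := key (G D) x
    exact ⟨s, t, τ, h1, h3⟩
  · rw [hB, ← kap_inst D hi, G_true]
    simp only [setA, Set.mem_ofPred_eq]
    generalize kap D (inst i x) = a
    generalize bb D (inst i x) = b
    revert a b
    decide

theorem oneQueryComplete_setA (D : Oracle) : OneQueryComplete (G D) (setA D) := by
  refine ⟨npu_setA D, fun B hB => ?_⟩
  obtain ⟨u, c, h1, h2⟩ := hB
  exact oneQuery_of_coded D (i := (false, u, c)) h1 h2

theorem fast_of_time {u : Prog} {t : ℕ → ℕ} (ht : ∀ N : ℕ, ∃ n ≥ N, 2 * t n < 2 ^ n)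
    (hu : ∀ (R' : Oracle) (x : List Bool), ∃ (s t' : ℕ) (τ : Store),
      Run R' s u (init x) t' τ ∧ t' ≤ t x.length) : Fast u := by
  intro N
  obtain ⟨n, h1, h2⟩ := ht N
  refine ⟨n, h1, t n, h2, fun R x hx => ?_⟩
  obtain ⟨s, t', τ, h3, h4⟩ := hu R x
  rw [hx] at h4
  exact ⟨s, t', τ, h3, h4⟩

theorem poly_lt_exp (c N : ℕ) : ∃ n ≥ N, 2 * (n ^ c + c) < 2 ^ n := by
  obtain ⟨j, hj⟩ : ∃ j, j = N + 2 * c + 4 := ⟨_, rfl⟩
  have hjn : j < 2 ^ j := Nat.lt_two_pow_self
  refine ⟨2 ^ j, by omega, ?_⟩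
  have h1 := sq_le_two_pow (j := j) (by omega)
  have h2 : (2 ^ j) ^ c + c ≤ 2 ^ (j * c + c) := by
    rw [pow_add, ← pow_mul]
    have h3 : c < 2 ^ c := Nat.lt_two_pow_self
    have h4 : 1 ≤ 2 ^ (j * c) := Nat.one_le_two_pow
    have h5 : 2 ^ (j * c) * (c + 1) ≤ 2 ^ (j * c) * 2 ^ c := Nat.mul_le_mul_left _ h3
    have h6 : 1 * c ≤ 2 ^ (j * c) * c := Nat.mul_le_mul_right _ h4
    rw [mul_add] at h5
    omega
  have h3 : j * c + c + 1 < 2 ^ j := by
    refine lt_of_lt_of_le ?_ h1
    rw [hj]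
    nlinarith
  calc 2 * ((2 ^ j) ^ c + c) ≤ 2 * 2 ^ (j * c + c) := Nat.mul_le_mul_left _ h2
    _ = 2 ^ (j * c + c + 1) := by rw [pow_succ]; ring
    _ < 2 ^ (2 ^ j) := Nat.pow_lt_pow_right (by norm_num) h3

/-- Relative to some oracle, `NP` contains `PSPACE`, and completeness under reductions with one query
differs from many-one completeness. -/
theorem main_CO : ∃ R : Oracle, (∀ L, PSPACEU R L → NPU R L) ∧
    ∃ A B : Set (List Bool), OneQueryComplete R A ∧ ¬ CompleteFor R (NPU R) A ∧ NPU R B ∧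
      ∀ t : ℕ → ℕ, (∀ N : ℕ, ∃ n ≥ N, 2 * t n < 2 ^ n) → ∀ f, TimeU R t f →
        (∃ x, ¬ (x ∈ B ↔ f x ∈ A)) ∧ ∃ x, ¬ (x ∈ B ↔ f x ≠ []) := by
  obtain ⟨D, hD⟩ := exists_data
  have key : ∀ t : ℕ → ℕ, (∀ N : ℕ, ∃ n ≥ N, 2 * t n < 2 ^ n) → ∀ f, TimeU (G D) t f →
        (∃ x, ¬ (x ∈ setK D ↔ f x ∈ setA D)) ∧ ∃ x, ¬ (x ∈ setK D ↔ f x ≠ []) := by
    rintro t ht f ⟨u, hu, hf⟩
    obtain ⟨⟨x, z, h1, h2⟩, ⟨x', z', h3, h4⟩⟩ := hD u (fast_of_time ht hu)
    rw [← (hf x).unique h1] at h2
    rw [← (hf x').unique h3] at h4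
    exact ⟨⟨x, h2⟩, x', h4⟩
  refine ⟨G D, fun L hL => pspace_le_np D hL, setA D, setK D, oneQueryComplete_setA D, ?_,
    npu_setK D, key⟩
  rintro ⟨_, h⟩
  obtain ⟨f, ⟨u, c, h1, h2⟩, h3⟩ := h _ (npu_setK D)
  obtain ⟨⟨x, hx⟩, _⟩ := key (fun n => n ^ c + c) (poly_lt_exp c) f ⟨u, h1, h2⟩
  exact hx (h3 x)

end Pool.Agent.L0h34.CO
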