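import Pool.Agent.L0h34.CO.Dense

/-! # Programs for the coded oracle -/

set_option autoImplicit false

namespace Pool.Agent.L0h34.CO

open Pool.Agent.L0h34.OM Pool.Agent.L0h34.RO Function

variable {G : Oracle} {x K W N P E a c d q r go : List Bool}

theorem go_puts2 (C j : ℕ) :
    Go G (iter (.put 2 true) C) (st [x, K, ones j, N, P, E, a, c, d, q, r, go])
      (C + 1) (st [x, K, ones (j + C), N, P, E, a, c, d, q, r, go]) := by
  induction C with
  | zero => exact Go.nop
  | succ C ih =>
    have h1 : Go G (.put 2 true) (st [x, K, ones (j + C), N, P, E, a, c, d, q, r, go]) 1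
      (st [x, K, ones (j + C) ++ ones 1, N, P, E, a, c, d, q, r, go]) := Go.put true (by simp)
    rw [ones_add] at h1
    exact (ih.seq h1).mono (by omega)

/-- Compute the instance. -/
def codP (k C e : ℕ) : Prog := .seq (.copy 0 5) (.seq (.each 5 (.put 3 true) (.put 3 true)) (.seq (iter (.put 3 true) C) (.seq (.put 4 true) (.seq (iter mulProg e) (.seq (.clear 3) (.seq (iter (.put 2 true) k) (.seq (.put 2 false) (.seq (.app 4 2 8) (.seq (.clear 4) (.seq (.put 2 false) (.seq (.app 0 2 8) (.seq (.copy 2 0) (.clear 2)))))))))))))

theorem go_codP (k C e : ℕ) {X W : List Bool} {b : ℕ} (hb : X.length + C = b) :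
    Go G (codP k C e) (st [X, W, [], [], [], [], [], [], [], [], [], [], [], [], [], [], [], [], [], []])
      (30 * b + 20 * b ^ e + 10 * k + 50 + (e * (10 * b * (b + 1) ^ e + 10 * b + 10) + 1))
      (st [ones k ++ false :: (ones (b ^ e) ++ false :: X), W, [], [], [], [], [], [], [], [], [], [], [], [], [], [], [], [], [], []]) := by
  obtain ⟨V, hV⟩ : ∃ V, ones k ++ false :: (ones (b ^ e) ++ false :: X) = V := ⟨_, rfl⟩
  have hVl : V.length = k + b ^ e + X.length + 2 := by
    rw [← hV]; simp only [ones, List.length_append, List.length_replicate, List.length_cons]; omega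
  rw [hV]
  have e1 : st [X, W, [], [], [], [], [], [], [], [], [], []] =
      st [X, W, [], [], [], [], [], [], [], [], [], [], [], [], [], [], [], [], [], []] :=
    (st_zeros [X, W, [], [], [], [], [], [], [], [], [], []] 8).symm
  have e2 : st [V, W, [], [], [], [], [], [], [], [], [], []] =
      st [V, W, [], [], [], [], [], [], [], [], [], [], [], [], [], [], [], [], [], []] :=
    (st_zeros [V, W, [], [], [], [], [], [], [], [], [], []] 8).symm
  rw [← e1, ← e2]
  have g1 : Go G (.copy 0 5) (st [X, W, [], [], [], [], [], [], [], [], [], []])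
      ((X : List Bool).length + 1)
      (st [X, W, [], [], [], X, [], [], [], [], [], []]) := Go.copy (by simp)
  have g2 : Go G (.each 5 (.put 3 true) (.put 3 true)) (st [X, W, [], [], [], X, [], [], [], [], [], []])
      (3 * X.length + 1)
      (st [X, W, [], ones (0 + X.length), [], [], [], [], [], [], [], []]) := go_ones X 0
  rw [Nat.zero_add] at g2
  have g3 : Go G (iter (.put 3 true) C) (st [X, W, [], ones X.length, [], [], [], [], [], [], [], []])
      (C + 1)
      (st [X, W, [], ones (X.length + C), [], [], [], [], [], [], [], []]) := go_puts C X.length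
  rw [hb] at g3
  have g4 : Go G (.put 4 true) (st [X, W, [], ones b, [], [], [], [], [], [], [], []])
      (1)
      (st [X, W, [], ones b, [true], [], [], [], [], [], [], []]) := Go.put true (by simp)
  have g5 : Go G (iter mulProg e) (st [X, W, [], ones b, ones 1, [], [], [], [], [], [], []])
      (e * (10 * b * (b + 1) ^ e + 10 * b + 10) + 1)
      (st [X, W, [], ones b, ones (b ^ e), [], [], [], [], [], [], []]) := go_pow e
  have g6 : Go G (.clear 3) (st [X, W, [], ones b, ones (b ^ e), [], [], [], [], [], [], []])
      (3 * (ones b : List Bool).length + 1)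
      (st [X, W, [], [], ones (b ^ e), [], [], [], [], [], [], []]) := Go.clear (by simp)
  have g7 : Go G (iter (.put 2 true) k) (st [X, W, [], [], ones (b ^ e), [], [], [], [], [], [], []])
      (k + 1)
      (st [X, W, ones (0 + k), [], ones (b ^ e), [], [], [], [], [], [], []]) := go_puts2 k 0
  rw [Nat.zero_add] at g7
  have g8 : Go G (.put 2 false) (st [X, W, ones k, [], ones (b ^ e), [], [], [], [], [], [], []])
      (1)
      (st [X, W, ones k ++ [false], [], ones (b ^ e), [], [], [], [], [], [], []]) := Go.put false (by simp)
  have g9 : Go G (.app 4 2 8) (st [X, W, ones k ++ [false], [], ones (b ^ e), [], [], [], [], [], [], []])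
      (4 * (ones (b ^ e) : List Bool).length + 2)
      (st [X, W, ones k ++ [false] ++ ones (b ^ e), [], ones (b ^ e), [], [], [], [], [], [], []]) := Go.app (by simp) (by simp) (by simp)
  have g10 : Go G (.clear 4) (st [X, W, ones k ++ [false] ++ ones (b ^ e), [], ones (b ^ e), [], [], [], [], [], [], []])
      (3 * (ones (b ^ e) : List Bool).length + 1)
      (st [X, W, ones k ++ [false] ++ ones (b ^ e), [], [], [], [], [], [], [], [], []]) := Go.clear (by simp)
  have g11 : Go G (.put 2 false) (st [X, W, ones k ++ [false] ++ ones (b ^ e), [], [], [], [], [], [], [], [], []])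
      (1)
      (st [X, W, ones k ++ [false] ++ ones (b ^ e) ++ [false], [], [], [], [], [], [], [], [], []]) := Go.put false (by simp)
  have g12 : Go G (.app 0 2 8) (st [X, W, ones k ++ [false] ++ ones (b ^ e) ++ [false], [], [], [], [], [], [], [], [], []])
      (4 * (X : List Bool).length + 2)
      (st [X, W, ones k ++ [false] ++ ones (b ^ e) ++ [false] ++ X, [], [], [], [], [], [], [], [], []]) := Go.app (by simp) (by simp) (by simp)
  have e3 : ones k ++ [false] ++ ones (b ^ e) ++ [false] ++ X = V := by rw [← hV]; simp
  rw [e3] at g12
  have g13 : Go G (.copy 2 0) (st [X, W, V, [], [], [], [], [], [], [], [], []])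
      ((V : List Bool).length + 1)
      (st [V, W, V, [], [], [], [], [], [], [], [], []]) := Go.copy (by simp)
  have g14 : Go G (.clear 2) (st [V, W, V, [], [], [], [], [], [], [], [], []])
      (3 * (V : List Bool).length + 1)
      (st [V, W, [], [], [], [], [], [], [], [], [], []]) := Go.clear (by simp)
  refine (g1.seq (g2.seq (g3.seq (g4.seq (g5.seq (g6.seq (g7.seq (g8.seq (g9.seq (g10.seq (g11.seq (g12.seq (g13.seq g14))))))))))))).mono ?_
  clear g14 g13 g12 g11 g10 g9 g8 g7 g6 g5 g4 g3 g2 g1
  simp only [ones, List.length_replicate, hVl]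
  obtain ⟨q1, hq1⟩ : ∃ q1, e * (10 * b * (b + 1) ^ e + 10 * b + 10) = q1 := ⟨_, rfl⟩
  rw [hq1]
  generalize b ^ e = q3
  omega

/-- Ask for the code of the string in register `0`, with the witness in register `1`. -/
def tailP : Prog := .seq (.copy 0 4) (.seq (.each 4 ptBody ptBody) (.seq (.app 0 5 7) (.seq (.app 2 5 7) (.seq (.ask 5 6) (.seq (.clear 0) (.take 6 .nop .nop (.put 0 true)))))))

theorem go_tailP {V W pre : List Bool} :
    Go G tailP (st [V, W, [], [], [], pre, [], [], [], [], [], [], [], [], [], [], [], [], [], []])
      (20 * V.length + 2 * pre.length + 20)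
      (st [cc (G (pre ++ V ++ pt V.length W)), W.drop V.length, pt V.length W, [], [], pre ++ V ++ pt V.length W, [], [], [], [], [], [], [], [], [], [], [], [], [], []]) := by
  obtain ⟨s, hs⟩ : ∃ s, pt V.length W = s := ⟨_, rfl⟩
  have hsl : s.length = V.length := by rw [← hs, length_pt]
  have g1 : Go G (.copy 0 4) (st [V, W, [], [], [], pre, [], [], [], [], [], [], [], [], [], [], [], [], [], []])
      ((V : List Bool).length + 1)
      (st [V, W, [], [], V, pre, [], [], [], [], [], [], [], [], [], [], [], [], [], []]) := Go.copy (by simp)
  have g2 : Go G (.each 4 ptBody ptBody) (st [V, W, [], [], V, pre, [], [], [], [], [], [], [], [], [], [], [], [], [], []])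
      (4 * V.length + 1)
      (st [V, W.drop V.length, [] ++ pt V.length W, [], [], pre, [], [], [], [], [], [], [], [], [], [], [], [], [], []]) := go_pt V
  rw [List.nil_append, hs] at g2
  rw [hs]
  have g3 : Go G (.app 0 5 7) (st [V, W.drop V.length, s, [], [], pre, [], [], [], [], [], [], [], [], [], [], [], [], [], []])
      (4 * (V : List Bool).length + 2)
      (st [V, W.drop V.length, s, [], [], pre ++ V, [], [], [], [], [], [], [], [], [], [], [], [], [], []]) := Go.app (by simp) (by simp) (by simp)
  have g4 : Go G (.app 2 5 7) (st [V, W.drop V.length, s, [], [], pre ++ V, [], [], [], [], [], [], [], [], [], [], [], [], [], []])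
      (4 * (s : List Bool).length + 2)
      (st [V, W.drop V.length, s, [], [], pre ++ V ++ s, [], [], [], [], [], [], [], [], [], [], [], [], [], []]) := Go.app (by simp) (by simp) (by simp)
  have g5 : Go G (.ask 5 6) (st [V, W.drop V.length, s, [], [], pre ++ V ++ s, [], [], [], [], [], [], [], [], [], [], [], [], [], []])
      ((pre ++ V ++ s : List Bool).length + 1)
      (st [V, W.drop V.length, s, [], [], pre ++ V ++ s, [G (pre ++ V ++ s)], [], [], [], [], [], [], [], [], [], [], [], [], []]) := Go.ask (by simp)
  have g6 : Go G (.clear 0) (st [V, W.drop V.length, s, [], [], pre ++ V ++ s, [G (pre ++ V ++ s)], [], [], [], [], [], [], [], [], [], [], [], [], []])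
      (3 * (V : List Bool).length + 1)
      (st [[], W.drop V.length, s, [], [], pre ++ V ++ s, [G (pre ++ V ++ s)], [], [], [], [], [], [], [], [], [], [], [], [], []]) := Go.clear (by simp)
  have g7 : Go G (.take 6 .nop .nop (.put 0 true)) (st [[], W.drop V.length, s, [], [], pre ++ V ++ s, [G (pre ++ V ++ s)], [], [], [], [], [], [], [], [], [], [], [], [], []])
      (2)
      (st [cc (G (pre ++ V ++ s)), W.drop V.length, s, [], [], pre ++ V ++ s, [], [], [], [], [], [], [], [], [], [], [], [], [], []]) := by
    cases G (pre ++ V ++ s)
    · exact Go.take_false (by simp) rfl Go.nop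
    · exact Go.take_true (by simp) rfl (Go.put true (by simp))
  refine (g1.seq (g2.seq (g3.seq (g4.seq (g5.seq (g6.seq g7)))))).mono ?_
  clear g7 g6 g5 g4 g3 g2 g1
  simp only [List.length_append, hsl]
  omega

/-- Ask for the mask of the string in register `0`. -/
def mskP : Prog := .seq (.put 7 true) (.seq (.app 0 7 8) (.seq (.ask 7 6) (.clear 7)))

theorem go_mskP {V W S : List Bool} :
    Go G mskP (st [V, W, S, [], [], [], [], [], [], [], [], [], [], [], [], [], [], [], [], []])
      (8 * V.length + 20)
      (st [V, W, S, [], [], [], [G (true :: V)], [], [], [], [], [], [], [], [], [], [], [], [], []]) := by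
  have g1 : Go G (.put 7 true) (st [V, W, S, [], [], [], [], [], [], [], [], [], [], [], [], [], [], [], [], []])
      (1)
      (st [V, W, S, [], [], [], [], [true], [], [], [], [], [], [], [], [], [], [], [], []]) := Go.put true (by simp)
  have g2 : Go G (.app 0 7 8) (st [V, W, S, [], [], [], [], [true], [], [], [], [], [], [], [], [], [], [], [], []])
      (4 * (V : List Bool).length + 2)
      (st [V, W, S, [], [], [], [], [true] ++ V, [], [], [], [], [], [], [], [], [], [], [], []]) := Go.app (by simp) (by simp) (by simp)
  have g3 : Go G (.ask 7 6) (st [V, W, S, [], [], [], [], true :: V, [], [], [], [], [], [], [], [], [], [], [], []])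
      ((true :: V : List Bool).length + 1)
      (st [V, W, S, [], [], [], [G (true :: V)], true :: V, [], [], [], [], [], [], [], [], [], [], [], []]) := Go.ask (by simp)
  have g4 : Go G (.clear 7) (st [V, W, S, [], [], [], [G (true :: V)], true :: V, [], [], [], [], [], [], [], [], [], [], [], []])
      (3 * (true :: V : List Bool).length + 1)
      (st [V, W, S, [], [], [], [G (true :: V)], [], [], [], [], [], [], [], [], [], [], [], [], []]) := Go.clear (by simp)
  refine (g1.seq (g2.seq (g3.seq g4))).mono ?_
  simp only [List.length_cons]
  omega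

/-- The verifier for the set of the instances with the value `true`. -/
def verK : Prog := .seq (.put 5 false) (.seq (.put 5 true) tailP)

theorem go_verK {V W : List Bool} : ∃ τ : Store, τ 0 = cc (G (false :: true :: (V ++ pt V.length W))) ∧
    Go G verK (st [V, W, [], [], [], [], [], [], [], [], [], [], [], [], [], [], [], [], [], []])
      (20 * V.length + 30) τ := by
  have g1 : Go G (.put 5 false) (st [V, W, [], [], [], [], [], [], [], [], [], [], [], [], [], [], [], [], [], []])
      (1)
      (st [V, W, [], [], [], [false], [], [], [], [], [], [], [], [], [], [], [], [], [], []]) := Go.put false (by simp)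
  have g2 : Go G (.put 5 true) (st [V, W, [], [], [], [false], [], [], [], [], [], [], [], [], [], [], [], [], [], []])
      (1)
      (st [V, W, [], [], [], [false, true], [], [], [], [], [], [], [], [], [], [], [], [], [], []]) := Go.put true (by simp)
  refine ⟨_, ?_, (g1.seq (g2.seq (go_tailP (V := V) (W := W) (pre := [false, true])))).mono (by
    simp only [List.length_cons, List.length_nil]; omega)⟩
  simp [st]

/-- The verifier for the masked set. -/
def verA : Prog := .seq mskP (.seq (.put 5 false) (.seq (.take 6 .nop (.put 5 true) (.put 5 false)) tailP))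

theorem go_verA {V W : List Bool} : ∃ τ : Store,
    τ 0 = cc (G (false :: (!G (true :: V)) :: (V ++ pt V.length W))) ∧
    Go G verA (st [V, W, [], [], [], [], [], [], [], [], [], [], [], [], [], [], [], [], [], []])
      (28 * V.length + 60) τ := by
  have g1 : Go G mskP (st [V, W, [], [], [], [], [], [], [], [], [], [], [], [], [], [], [], [], [], []])
      (8 * V.length + 20)
      (st [V, W, [], [], [], [], [G (true :: V)], [], [], [], [], [], [], [], [], [], [], [], [], []]) := go_mskP
  have g2 : Go G (.put 5 false) (st [V, W, [], [], [], [], [G (true :: V)], [], [], [], [], [], [], [], [], [], [], [], [], []])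
      (1)
      (st [V, W, [], [], [], [false], [G (true :: V)], [], [], [], [], [], [], [], [], [], [], [], [], []]) := Go.put false (by simp)
  have g3 : Go G (.take 6 .nop (.put 5 true) (.put 5 false)) (st [V, W, [], [], [], [false], [G (true :: V)], [], [], [], [], [], [], [], [], [], [], [], [], []])
      (2)
      (st [V, W, [], [], [], [false, !G (true :: V)], [], [], [], [], [], [], [], [], [], [], [], [], [], []]) := by
    cases G (true :: V)
    · exact Go.take_false (by simp) rfl (Go.put true (by simp))
    · exact Go.take_true (by simp) rfl (Go.put false (by simp))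
  refine ⟨_, ?_, (g1.seq (g2.seq (g3.seq (go_tailP (V := V) (W := W) (pre := [false, !G (true :: V)]))))).mono (by
      simp only [List.length_cons, List.length_nil]; omega)⟩
  simp [st]

/-- The end of the reduction. -/
def outP : Prog := .seq mskP (.seq (.take 6 .nop (.seq (.put 2 false) (.put 2 true)) (.seq (.put 2 true) (.put 2 false))) (.seq (.app 0 2 7) (.copy 2 0)))

theorem go_outP {V W : List Bool} : ∃ τ : Store, τ 0 = G (true :: V) :: (!G (true :: V)) :: V ∧
    Go G outP (st [V, W, [], [], [], [], [], [], [], [], [], [], [], [], [], [], [], [], [], []])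
      (20 * V.length + 60) τ := by
  have g1 : Go G mskP (st [V, W, [], [], [], [], [], [], [], [], [], [], [], [], [], [], [], [], [], []])
      (8 * V.length + 20)
      (st [V, W, [], [], [], [], [G (true :: V)], [], [], [], [], [], [], [], [], [], [], [], [], []]) := go_mskP
  have g2 : Go G (.take 6 .nop (.seq (.put 2 false) (.put 2 true)) (.seq (.put 2 true) (.put 2 false))) (st [V, W, [], [], [], [], [G (true :: V)], [], [], [], [], [], [], [], [], [], [], [], [], []])
      (3)
      (st [V, W, [G (true :: V), !G (true :: V)], [], [], [], [], [], [], [], [], [], [], [], [], [], [], [], [], []]) := by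
    cases G (true :: V)
    · exact Go.take_false (by simp) rfl ((Go.put false (by simp)).seq (Go.put true (by simp)))
    · exact Go.take_true (by simp) rfl ((Go.put true (by simp)).seq (Go.put false (by simp)))
  have g3 : Go G (.app 0 2 7) (st [V, W, [G (true :: V), !G (true :: V)], [], [], [], [], [], [], [], [], [], [], [], [], [], [], [], [], []])
      (4 * (V : List Bool).length + 2)
      (st [V, W, [G (true :: V), !G (true :: V)] ++ V, [], [], [], [], [], [], [], [], [], [], [], [], [], [], [], [], []]) := Go.app (by simp) (by simp) (by simp)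
  have g4 : Go G (.copy 2 0) (st [V, W, G (true :: V) :: (!G (true :: V)) :: V, [], [], [], [], [], [], [], [], [], [], [], [], [], [], [], [], []])
      ((G (true :: V) :: (!G (true :: V)) :: V : List Bool).length + 1)
      (st [G (true :: V) :: (!G (true :: V)) :: V, W, G (true :: V) :: (!G (true :: V)) :: V, [], [], [], [], [], [], [], [], [], [], [], [], [], [], [], [], []]) := Go.copy (by simp)
  refine ⟨_, ?_, (g1.seq (g2.seq (g3.seq g4))).mono ?_⟩
  · simp [st]
  · simp only [List.length_cons, List.length_append, List.length_nil]
    omega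

end Pool.Agent.L0h34.CO
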